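import Pool.Agent.Helper2.LP.Plane

/-!
# Colourings of a strictly convex plane whose classes have the Baire property
-/

open Set Metric Topology Module Filter

namespace Pool.Agent.Helper2.LP

section baire

variable {E : Type*} [NormedAddCommGroup E] [NormedSpace ℝ E]

omit [NormedSpace ℝ E] in
lemma open_empty [BaireSpace E] {W : Set E} (hW : IsOpen W) (h : ∀ᶠ x in residual E, x ∉ W) :
    W = ∅ := by
  by_contra hne
  obtain ⟨x, hx⟩ := nonempty_iff_ne_empty.2 hne
  have hd : Dense {x | x ∉ W} := dense_of_mem_residual h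
  obtain ⟨y, hy1, hy2⟩ := hd.inter_open_nonempty W hW ⟨x, hx⟩
  exact hy2 hy1

/-- A finite colouring with Baire measurable classes and no monochromatic pair at distance one
gives a tiling. -/
theorem exists_tiling [FiniteDimensional ℝ E] {ι : Type*} [Finite ι] (κ : E → ι)
    (hκ : ∀ i, BaireMeasurableSet (κ ⁻¹' {i})) (hno : ∀ x y, κ x = κ y → ‖x - y‖ ≠ 1) :
    ∃ U : ι → Set E, Tiling U := by
  have hcomp : CompleteSpace E := FiniteDimensional.complete ℝ E
  choose U hUo hU using fun i => (hκ i).residualEq_isOpen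
  have hU' : ∀ i, ∀ᶠ x in residual E, (κ x = i ↔ x ∈ U i) := by
    intro i
    filter_upwards [hU i] with x hx
    have h1 : (x ∈ κ ⁻¹' {i}) = (x ∈ U i) := hx
    rw [← h1]
    rfl
  have hall : ∀ᶠ x in residual E, ∀ i, (κ x = i ↔ x ∈ U i) := eventually_countable_forall.2 hU'
  refine ⟨U, hUo, ?_, ?_, ?_⟩
  · intro i j hij
    rw [Set.disjoint_iff_inter_eq_empty]
    apply open_empty ((hUo i).inter (hUo j))
    filter_upwards [hall] with x hx hx'
    exact hij (((hx i).2 hx'.1).symm.trans ((hx j).2 hx'.2))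
  · intro x
    have hd : Dense {x | ∀ i, (κ x = i ↔ x ∈ U i)} := dense_of_mem_residual hall
    have h1 : x ∈ closure (⋃ i, U i) := by
      apply closure_mono _ (hd x)
      intro y hy
      exact mem_iUnion.2 ⟨κ y, (hy (κ y)).1 rfl⟩
    rw [closure_iUnion_of_finite] at h1
    exact mem_iUnion.1 h1
  · intro i x hx y hy hxy
    let T : E ≃ₜ E := Homeomorph.addRight (y - x)
    have hT : Tendsto T (residual E) (residual E) := by
      rw [Filter.Tendsto, T.residual_map_eq]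
    have h1 : ∀ᶠ z in residual E, (κ (z + (y - x)) = i ↔ z + (y - x) ∈ U i) := hT.eventually (hU' i)
    have hW : IsOpen (U i ∩ T ⁻¹' U i) := (hUo i).inter ((hUo i).preimage T.continuous)
    have hWe : U i ∩ T ⁻¹' U i = ∅ := by
      apply open_empty hW
      filter_upwards [hU' i, h1] with z hz1 hz2 hz3
      have h2 : κ z = i := hz1.2 hz3.1
      have h3 : κ (z + (y - x)) = i := hz2.2 hz3.2
      apply hno z (z + (y - x)) (h2.trans h3.symm)
      rw [show z - (z + (y - x)) = x - y by abel]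
      exact hxy
    have hxm : x ∈ U i ∩ T ⁻¹' U i := by
      refine ⟨hx, ?_⟩
      show x + (y - x) ∈ U i
      rw [add_sub_cancel]
      exact hy
    rw [hWe] at hxm
    exact hxm

theorem no_four_baire [StrictConvexSpace ℝ E] (h2 : finrank ℝ E = 2) (κ : E → Fin 4)
    (hκ : ∀ i, BaireMeasurableSet (κ ⁻¹' {i})) : ∃ x y, κ x = κ y ∧ ‖x - y‖ = 1 := by
  have hfd : FiniteDimensional ℝ E := finite_of_finrank_eq_succ h2
  by_contra hcon
  push Not at hcon
  obtain ⟨U, hU⟩ := exists_tiling κ hκ hcon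
  exact no_four h2 hU

end baire

section lp

lemma abs_mid_lt {p : ℝ} (hp : 1 < p) {a b : ℝ} (hab : a ≠ b) :
    |a + b| ^ p < 2 ^ (p - 1) * (|a| ^ p + |b| ^ p) := by
  have hp0 : 0 < p := by linarith
  have h2 : (2 : ℝ) ^ p = 2 ^ (p - 1) * 2 := by
    rw [Real.rpow_sub_one (by norm_num)]
    field_simp
  by_cases h : |a| = |b|
  · have hb : a = -b := by
      rcases abs_eq_abs.1 h with h | h
      · exact absurd h hab
      · exact h
    have ha0 : b ≠ 0 := by
      rintro rfl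
      exact hab (by simpa using hb)
    rw [hb, neg_add_cancel, abs_zero, Real.zero_rpow hp0.ne', abs_neg]
    have : 0 < |b| ^ p := Real.rpow_pos_of_pos (abs_pos.2 ha0) p
    positivity
  · have h3 := (strictConvexOn_rpow hp).2 (mem_Ici.2 (abs_nonneg a)) (mem_Ici.2 (abs_nonneg b)) h
      (show (0 : ℝ) < 1 / 2 by norm_num) (show (0 : ℝ) < 1 / 2 by norm_num) (by norm_num)
    simp only [smul_eq_mul] at h3
    have h4 : |a + b| ^ p ≤ (2 * (1 / 2 * |a| + 1 / 2 * |b|)) ^ p := by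
      apply Real.rpow_le_rpow (abs_nonneg _) _ hp0.le
      calc |a + b| ≤ |a| + |b| := abs_add_le _ _
        _ = _ := by ring
    rw [Real.mul_rpow (by norm_num) (by positivity), h2] at h4
    have h5 : (0 : ℝ) < 2 ^ (p - 1) := Real.rpow_pos_of_pos (by norm_num) _
    calc |a + b| ^ p ≤ 2 ^ (p - 1) * 2 * (1 / 2 * |a| + 1 / 2 * |b|) ^ p := h4
      _ < 2 ^ (p - 1) * 2 * (1 / 2 * |a| ^ p + 1 / 2 * |b| ^ p) := by gcongr
      _ = _ := by ring

theorem no_four_lp {p : ℝ} (hp : 1 < p) (κ : ℝ × ℝ → Fin 4)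
    (hκ : ∀ i, BaireMeasurableSet (κ ⁻¹' {i})) :
    ∃ x y : ℝ × ℝ, κ x = κ y ∧ |x.1 - y.1| ^ p + |x.2 - y.2| ^ p = 1 := by
  have hp0 : 0 < p := by linarith
  let q : ENNReal := ENNReal.ofReal p
  have hq : q.toReal = p := ENNReal.toReal_ofReal hp0.le
  have hq1 : Fact (1 ≤ q) := ⟨by
    rw [← ENNReal.ofReal_one]
    exact ENNReal.ofReal_le_ofReal hp.le⟩
  have hnorm : ∀ f : WithLp q (ℝ × ℝ), ‖f‖ = (|f.fst| ^ p + |f.snd| ^ p) ^ (1 / p) := by
    intro f
    have := WithLp.prod_norm_eq_add (p := q) (by rw [hq]; exact hp0) f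
    rw [hq] at this
    exact this
  have hone : ∀ f : WithLp q (ℝ × ℝ), ‖f‖ = 1 → |f.fst| ^ p + |f.snd| ^ p = 1 := by
    intro f hf
    rw [hnorm] at hf
    have h0 : 0 ≤ |f.fst| ^ p + |f.snd| ^ p := by positivity
    calc |f.fst| ^ p + |f.snd| ^ p = ((|f.fst| ^ p + |f.snd| ^ p) ^ (1 / p)) ^ p := by
          rw [← Real.rpow_mul h0, one_div_mul_cancel hp0.ne', Real.rpow_one]
      _ = 1 := by rw [hf, Real.one_rpow]
  have htwo : ∀ f : WithLp q (ℝ × ℝ), ‖f‖ = 2 → |f.fst| ^ p + |f.snd| ^ p = 2 ^ p := by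
    intro f hf
    rw [hnorm] at hf
    have h0 : 0 ≤ |f.fst| ^ p + |f.snd| ^ p := by positivity
    calc |f.fst| ^ p + |f.snd| ^ p = ((|f.fst| ^ p + |f.snd| ^ p) ^ (1 / p)) ^ p := by
          rw [← Real.rpow_mul h0, one_div_mul_cancel hp0.ne', Real.rpow_one]
      _ = 2 ^ p := by rw [hf]
  have hsc : StrictConvexSpace ℝ (WithLp q (ℝ × ℝ)) := by
    apply StrictConvexSpace.of_norm_add_ne_two
    intro x y hx hy hxy h2
    have hx1 := hone x hx
    have hy1 := hone y hy
    have h3 := htwo _ h2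
    have e1 : (x + y).fst = x.fst + y.fst := rfl
    have e2 : (x + y).snd = x.snd + y.snd := rfl
    rw [e1, e2] at h3
    have h2p : (2 : ℝ) ^ p = 2 ^ (p - 1) * 2 := by
      rw [Real.rpow_sub_one (by norm_num)]
      field_simp
    have hle : ∀ a b : ℝ, |a + b| ^ p ≤ 2 ^ (p - 1) * (|a| ^ p + |b| ^ p) := by
      intro a b
      by_cases hab : a = b
      · subst hab
        rw [← two_mul, abs_mul, Real.mul_rpow (abs_nonneg _) (abs_nonneg _), abs_two, h2p]
        apply le_of_eq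
        ring
      · exact (abs_mid_lt hp hab).le
    have hlt : |x.fst + y.fst| ^ p + |x.snd + y.snd| ^ p <
        2 ^ (p - 1) * (|x.fst| ^ p + |y.fst| ^ p) + 2 ^ (p - 1) * (|x.snd| ^ p + |y.snd| ^ p) := by
      by_cases h4 : x.fst = y.fst
      · have h5 : x.snd ≠ y.snd := by
          intro h5
          apply hxy
          have : x.ofLp = y.ofLp := Prod.ext h4 h5
          exact (WithLp.ofLp_injective q) this
        exact add_lt_add_of_le_of_lt (hle _ _) (abs_mid_lt hp h5)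
      · exact add_lt_add_of_lt_of_le (abs_mid_lt hp h4) (hle _ _)
    have h6 : 2 ^ (p - 1) * (|x.fst| ^ p + |y.fst| ^ p) + 2 ^ (p - 1) * (|x.snd| ^ p + |y.snd| ^ p)
        = 2 ^ (p - 1) * ((|x.fst| ^ p + |x.snd| ^ p) + (|y.fst| ^ p + |y.snd| ^ p)) := by ring
    rw [h6, hx1, hy1, h3, h2p] at hlt
    norm_num at hlt
  have hfr : finrank ℝ (WithLp q (ℝ × ℝ)) = 2 := by
    rw [(WithLp.linearEquiv q ℝ (ℝ × ℝ)).finrank_eq]
    simp
  let H : WithLp q (ℝ × ℝ) ≃ₜ ℝ × ℝ := WithLp.homeomorphProd q ℝ ℝ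
  obtain ⟨x, y, hxy1, hxy2⟩ := no_four_baire (E := WithLp q (ℝ × ℝ)) hfr (fun z => κ (H z)) (by
    intro i
    exact (hκ i).preimage H.continuous H.isOpenMap)
  refine ⟨H x, H y, hxy1, ?_⟩
  have := hone _ hxy2
  exact this

end lp

end Pool.Agent.Helper2.LP
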