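import Pool.Agent.Helper54.InvDomain
import Mathlib

/-!
# Crossing lemma in the square

Poincare-Miranda, separation of closed sets in compact spaces, the crossing lemma, boundary
bumping and the finite closed cover lemma.
-/

open Set Metric Topology

namespace Pool.Agent.Helper2.LP

/-- clamp to `[-1,1]` -/
noncomputable def cl (x : ℝ) : ℝ := max (-1) (min 1 x)

lemma cl_cont : Continuous cl := by
  unfold cl
  fun_prop

lemma cl_ge (x : ℝ) : -1 ≤ cl x := le_max_left _ _

lemma cl_le (x : ℝ) : cl x ≤ 1 := max_le (by norm_num) (min_le_left _ _)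

lemma cl_id {x : ℝ} (h1 : -1 ≤ x) (h2 : x ≤ 1) : cl x = x := by
  unfold cl
  rw [min_eq_right h2, max_eq_right h1]

/-- Poincare-Miranda theorem in dimension two. -/
theorem poincare_miranda {h g : ℝ × ℝ → ℝ} (hh : Continuous h) (hg : Continuous g)
    (h1 : ∀ t ∈ Icc (-1 : ℝ) 1, h (-1, t) ≤ 0) (h2 : ∀ t ∈ Icc (-1 : ℝ) 1, 0 ≤ h (1, t))
    (g1 : ∀ s ∈ Icc (-1 : ℝ) 1, g (s, -1) ≤ 0) (g2 : ∀ s ∈ Icc (-1 : ℝ) 1, 0 ≤ g (s, 1)) :
    ∃ s ∈ Icc (-1 : ℝ) 1, ∃ t ∈ Icc (-1 : ℝ) 1, h (s, t) = 0 ∧ g (s, t) = 0 := by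
  let S : EuclideanSpace ℝ (Fin 2) → ℝ := fun x => cl (2 * x 0)
  let T : EuclideanSpace ℝ (Fin 2) → ℝ := fun x => cl (2 * x 1)
  have hS : Continuous S := cl_cont.comp (by fun_prop)
  have hT : Continuous T := cl_cont.comp (by fun_prop)
  let F : EuclideanSpace ℝ (Fin 2) → EuclideanSpace ℝ (Fin 2) := fun x =>
    !₂[(1 / 2) * cl (S x - h (S x, T x)), (1 / 2) * cl (T x - g (S x, T x))]
  have hF : Continuous F := by
    have c1 : Continuous fun x => (1 / 2 : ℝ) * cl (S x - h (S x, T x)) :=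
      continuous_const.mul (cl_cont.comp (hS.sub (hh.comp (hS.prodMk hT))))
    have c2 : Continuous fun x => (1 / 2 : ℝ) * cl (T x - g (S x, T x)) :=
      continuous_const.mul (cl_cont.comp (hT.sub (hg.comp (hS.prodMk hT))))
    refine (PiLp.continuous_toLp 2 _).comp ?_
    refine continuous_pi fun i => ?_
    fin_cases i
    · exact c1
    · exact c2
  obtain ⟨x, -, hx⟩ := Pool.Agent.Helper54.brouwer (F := F) hF.continuousOn (by
    intro x _
    rw [mem_closedBall_zero_iff, EuclideanSpace.norm_eq, Fin.sum_univ_two, Real.sqrt_le_one]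
    have a1 := cl_ge (S x - h (S x, T x))
    have a2 := cl_le (S x - h (S x, T x))
    have b1 := cl_ge (T x - g (S x, T x))
    have b2 := cl_le (T x - g (S x, T x))
    simp only [F, Real.norm_eq_abs, sq_abs]
    simp
    nlinarith)
  have e0 : x 0 = (1 / 2) * cl (S x - h (S x, T x)) := by
    conv_lhs => rw [← hx]
    simp [F]
  have e1 : x 1 = (1 / 2) * cl (T x - g (S x, T x)) := by
    conv_lhs => rw [← hx]
    simp [F]
  have hs : S x = cl (S x - h (S x, T x)) := by
    have h1 : (2 : ℝ) * x 0 = cl (S x - h (S x, T x)) := by linarith [e0]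
    calc S x = cl (2 * x 0) := rfl
      _ = cl (cl (S x - h (S x, T x))) := by rw [h1]
      _ = _ := cl_id (cl_ge _) (cl_le _)
  have ht : T x = cl (T x - g (S x, T x)) := by
    have h1 : (2 : ℝ) * x 1 = cl (T x - g (S x, T x)) := by linarith [e1]
    calc T x = cl (2 * x 1) := rfl
      _ = cl (cl (T x - g (S x, T x))) := by rw [h1]
      _ = _ := cl_id (cl_ge _) (cl_le _)
  have hS1 : S x ∈ Icc (-1 : ℝ) 1 := ⟨cl_ge _, cl_le _⟩
  have hT1 : T x ∈ Icc (-1 : ℝ) 1 := ⟨cl_ge _, cl_le _⟩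
  refine ⟨S x, hS1, T x, hT1, ?_, ?_⟩
  · set s := S x with hsdef
    set t := T x with htdef
    rcases lt_trichotomy (h (s, t)) 0 with hlt | heq | hgt
    · exfalso
      have h3 : s = 1 := by
        unfold cl at hs
        rcases le_total 1 (s - h (s, t)) with h4 | h4
        · rw [min_eq_left h4] at hs
          rw [hs]; norm_num
        · rw [min_eq_right h4, max_eq_right (by linarith [hS1.1])] at hs
          linarith
      have := h2 t hT1
      rw [h3] at hlt
      linarith
    · exact heq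
    · exfalso
      have h3 : s = -1 := by
        unfold cl at hs
        rw [min_eq_right (by linarith [hS1.2])] at hs
        rcases le_total (-1) (s - h (s, t)) with h4 | h4
        · rw [max_eq_right h4] at hs
          linarith
        · rw [max_eq_left h4] at hs
          exact hs
      have := h1 t hT1
      rw [h3] at hgt
      linarith
  · set s := S x with hsdef
    set t := T x with htdef
    rcases lt_trichotomy (g (s, t)) 0 with hlt | heq | hgt
    · exfalso
      have h3 : t = 1 := by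
        unfold cl at ht
        rcases le_total 1 (t - g (s, t)) with h4 | h4
        · rw [min_eq_left h4] at ht
          rw [ht]; norm_num
        · rw [min_eq_right h4, max_eq_right (by linarith [hT1.1])] at ht
          linarith
      have := g2 s hS1
      rw [h3] at hlt
      linarith
    · exact heq
    · exfalso
      have h3 : t = -1 := by
        unfold cl at ht
        rw [min_eq_right (by linarith [hT1.2])] at ht
        rcases le_total (-1) (t - g (s, t)) with h4 | h4
        · rw [max_eq_right h4] at ht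
          linarith
        · rw [max_eq_left h4] at ht
          exact ht
      have := g1 s hS1
      rw [h3] at hgt
      linarith

/-- In a compact Hausdorff space, two closed sets that no connected set meets both can be
separated by a clopen set. -/
theorem sep {X : Type*} [TopologicalSpace X] [CompactSpace X] [T2Space X] {A B : Set X}
    (hA : IsClosed A) (hB : IsClosed B)
    (h : ∀ C : Set X, IsPreconnected C → (C ∩ A).Nonempty → (C ∩ B).Nonempty → False) :
    ∃ F : Set X, IsClopen F ∧ A ⊆ F ∧ Disjoint F B := by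
  have key : ∀ a ∈ A, ∃ F : Set X, IsClopen F ∧ a ∈ F ∧ Disjoint F B := by
    intro a ha
    have hcc : B ∩ ⋂ s : { s : Set X // IsClopen s ∧ a ∈ s }, (s : Set X) = ∅ := by
      rw [← connectedComponent_eq_iInter_isClopen]
      by_contra hne
      obtain ⟨b, hb⟩ := nonempty_iff_ne_empty.2 hne
      exact h (connectedComponent a) isPreconnected_connectedComponent
        ⟨a, mem_connectedComponent, ha⟩ ⟨b, hb.2, hb.1⟩
    obtain ⟨u, hu⟩ := hB.isCompact.elim_finite_subfamily_closed
      (fun s : { s : Set X // IsClopen s ∧ a ∈ s } => (s : Set X)) (fun s => s.2.1.1) hcc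
    refine ⟨⋂ s ∈ u, (s : Set X), ?_, ?_, ?_⟩
    · exact u.finite_toSet.isClopen_biInter (fun s _ => s.2.1)
    · exact mem_iInter₂.2 fun s _ => s.2.2
    · rw [Set.disjoint_iff_inter_eq_empty, inter_comm]
      exact hu
  choose! F hF1 hF2 hF3 using key
  obtain ⟨u, hu1, hu2⟩ := hA.isCompact.elim_nhds_subcover F
    (fun a ha => (hF1 a ha).2.mem_nhds (hF2 a ha))
  refine ⟨⋃ a ∈ u, F a, ?_, hu2, ?_⟩
  · exact u.finite_toSet.isClopen_biUnion (fun a ha => hF1 a (hu1 a ha))
  · rw [Set.disjoint_iUnion₂_left]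
    exact fun a ha => hF3 a (hu1 a ha)

/-- Crossing lemma: if the left side of the square lies in an open set `L`, the right side in a
disjoint open set `R`, then a connected part of the complement joins bottom and top. -/
theorem crossing {L R : Set (ℝ × ℝ)} (hL : IsOpen L) (hR : IsOpen R) (hLR : Disjoint L R)
    (hl : ∀ t ∈ Icc (-1 : ℝ) 1, ((-1 : ℝ), t) ∈ L) (hr : ∀ t ∈ Icc (-1 : ℝ) 1, ((1 : ℝ), t) ∈ R) :
    ∃ C : Set (ℝ × ℝ), IsPreconnected C ∧ C ⊆ (L ∪ R)ᶜ ∧ Bornology.IsBounded C ∧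
      (∃ s, (s, -1) ∈ C) ∧ (∃ s, (s, 1) ∈ C) := by
  by_contra hcon
  push Not at hcon
  let Q : Set (ℝ × ℝ) := Icc (-1 : ℝ) 1 ×ˢ Icc (-1 : ℝ) 1
  have hQ : IsCompact Q := isCompact_Icc.prod isCompact_Icc
  let K : Set (ℝ × ℝ) := (L ∪ R)ᶜ ∩ Q
  have hK : IsCompact K := hQ.inter_left (hL.union hR).isClosed_compl
  let bot : Set (ℝ × ℝ) := Icc (-1 : ℝ) 1 ×ˢ {-1}
  let top : Set (ℝ × ℝ) := Icc (-1 : ℝ) 1 ×ˢ {1}
  have hbot : IsClosed bot := isClosed_Icc.prod isClosed_singleton
  have htop : IsClosed top := isClosed_Icc.prod isClosed_singleton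
  have hKc : CompactSpace K := isCompact_iff_compactSpace.1 hK
  obtain ⟨F, hF1, hF2, hF3⟩ := sep (X := K) (A := Subtype.val ⁻¹' bot) (B := Subtype.val ⁻¹' top)
    (hbot.preimage continuous_subtype_val) (htop.preimage continuous_subtype_val) (by
      rintro C hC ⟨a, ha, ha'⟩ ⟨b, hb, hb'⟩
      have hC' : IsPreconnected (Subtype.val '' C) := hC.image _ continuous_subtype_val.continuousOn
      refine hcon (Subtype.val '' C) hC' ?_ ?_ ⟨(a : ℝ × ℝ).1, ?_⟩ (b : ℝ × ℝ).1 ?_
      · rintro _ ⟨c, -, rfl⟩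
        exact c.2.1
      · exact hQ.isBounded.subset (by rintro _ ⟨c, -, rfl⟩; exact c.2.2)
      · have : (a : ℝ × ℝ).2 = -1 := ha'.2
        rw [← this]
        exact ⟨a, ha, rfl⟩
      · have : (b : ℝ × ℝ).2 = 1 := hb'.2
        rw [← this]
        exact ⟨b, hb, rfl⟩)
  let Kb : Set (ℝ × ℝ) := Subtype.val '' F
  let Kt : Set (ℝ × ℝ) := Subtype.val '' Fᶜ
  have hKb : IsClosed Kb := (hF1.1.isCompact.image continuous_subtype_val).isClosed
  have hKt : IsClosed Kt := (hF1.compl.1.isCompact.image continuous_subtype_val).isClosed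
  have hKu : ∀ z ∈ K, z ∈ Kb ∨ z ∈ Kt := by
    intro z hz
    by_cases h : (⟨z, hz⟩ : K) ∈ F
    · exact Or.inl ⟨_, h, rfl⟩
    · exact Or.inr ⟨_, h, rfl⟩
  have hdis : ∀ z, z ∈ Kb → z ∈ Kt → False := by
    rintro z ⟨a, ha, rfl⟩ ⟨b, hb, hab⟩
    exact hb (by rwa [Subtype.val_injective hab])
  have hbt : ∀ z, z ∈ Kb → z ∈ top → False := by
    rintro z ⟨a, ha, rfl⟩ hz
    exact Set.disjoint_left.1 hF3 ha hz
  have htb : ∀ z, z ∈ Kt → z ∈ bot → False := by
    rintro z ⟨a, ha, rfl⟩ hz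
    exact ha (hF2 hz)
  have ht0 : (0 : ℝ) ∈ Icc (-1 : ℝ) 1 := by norm_num
  have hLne : (Lᶜ).Nonempty := ⟨(1, 0), fun h => Set.disjoint_left.1 hLR h (hr 0 ht0)⟩
  have hRne : (Rᶜ).Nonempty := ⟨(-1, 0), fun h => Set.disjoint_left.1 hLR (hl 0 ht0) h⟩
  obtain ⟨s, hs, t, ht, h0, g0⟩ := poincare_miranda
    (h := fun z => infDist z Rᶜ - infDist z Lᶜ)
    (g := fun z => infDist z (Kb ∪ bot) - infDist z (Kt ∪ top))
    ((continuous_infDist_pt _).sub (continuous_infDist_pt _))
    ((continuous_infDist_pt _).sub (continuous_infDist_pt _))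
    (by
      intro t ht
      have h1 : ((-1 : ℝ), t) ∈ Rᶜ := fun h => Set.disjoint_left.1 hLR (hl t ht) h
      simp only [infDist_zero_of_mem h1]
      linarith [infDist_nonneg (x := ((-1 : ℝ), t)) (s := Lᶜ)])
    (by
      intro t ht
      have h1 : ((1 : ℝ), t) ∈ Lᶜ := fun h => Set.disjoint_left.1 hLR h (hr t ht)
      simp only [infDist_zero_of_mem h1]
      linarith [infDist_nonneg (x := ((1 : ℝ), t)) (s := Rᶜ)])
    (by
      intro s hs
      have h1 : (s, (-1 : ℝ)) ∈ Kb ∪ bot := Or.inr ⟨hs, rfl⟩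
      simp only [infDist_zero_of_mem h1]
      linarith [infDist_nonneg (x := (s, (-1 : ℝ))) (s := Kt ∪ top)])
    (by
      intro s hs
      have h1 : (s, (1 : ℝ)) ∈ Kt ∪ top := Or.inr ⟨hs, rfl⟩
      simp only [infDist_zero_of_mem h1]
      linarith [infDist_nonneg (x := (s, (1 : ℝ))) (s := Kb ∪ bot)])
  have hz : ((s, t) : ℝ × ℝ) ∈ K := by
    refine ⟨?_, hs, ht⟩
    rintro (h | h)
    · have h1 : ((s, t) : ℝ × ℝ) ∈ Rᶜ := fun h' => Set.disjoint_left.1 hLR h h'
      rw [infDist_zero_of_mem h1] at h0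
      have h2 : infDist ((s, t) : ℝ × ℝ) Lᶜ = 0 := by linarith
      exact ((hL.isClosed_compl.mem_iff_infDist_zero hLne).2 h2) h
    · have h1 : ((s, t) : ℝ × ℝ) ∈ Lᶜ := fun h' => Set.disjoint_left.1 hLR h' h
      rw [infDist_zero_of_mem h1] at h0
      have h2 : infDist ((s, t) : ℝ × ℝ) Rᶜ = 0 := by linarith
      exact ((hR.isClosed_compl.mem_iff_infDist_zero hRne).2 h2) h
  rcases hKu _ hz with h | h
  · have h1 : ((s, t) : ℝ × ℝ) ∈ Kb ∪ bot := Or.inl h
    rw [infDist_zero_of_mem h1] at g0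
    have h2 : infDist ((s, t) : ℝ × ℝ) (Kt ∪ top) = 0 := by linarith
    rcases ((hKt.union htop).mem_iff_infDist_zero ⟨(0, 1), Or.inr ⟨ht0, rfl⟩⟩).2 h2 with h3 | h3
    · exact hdis _ h h3
    · exact hbt _ h h3
  · have h1 : ((s, t) : ℝ × ℝ) ∈ Kt ∪ top := Or.inl h
    rw [infDist_zero_of_mem h1] at g0
    have h2 : infDist ((s, t) : ℝ × ℝ) (Kb ∪ bot) = 0 := by linarith
    rcases ((hKb.union hbot).mem_iff_infDist_zero ⟨(0, -1), Or.inr ⟨ht0, rfl⟩⟩).2 h2 with h3 | h3
    · exact hdis _ h3 h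
    · exact htb _ h h3

/-- Boundary bumping. -/
theorem bumping {X : Type*} [TopologicalSpace X] [CompactSpace X] [T2Space X] [PreconnectedSpace X]
    [Nontrivial X] {O : Set X} (hO : IsOpen O) (hne : O.Nonempty) :
    ∃ D : Set X, IsPreconnected D ∧ D.Nontrivial ∧ D ⊆ O := by
  obtain ⟨x, hx⟩ := hne
  obtain ⟨y, hy⟩ := exists_ne x
  have hO' : O ∩ {y}ᶜ ∈ 𝓝 x :=
    (hO.inter isOpen_compl_singleton).mem_nhds ⟨hx, fun h => hy (by simpa using h.symm)⟩
  obtain ⟨W, hW, hWc, hWO⟩ := exists_mem_nhds_isClosed_subset hO'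
  have hxV : x ∈ interior W := mem_interior_iff_mem_nhds.2 hW
  have hKc : CompactSpace W := isCompact_iff_compactSpace.1 hWc.isCompact
  by_contra hcon
  push Not at hcon
  obtain ⟨F, hF1, hF2, hF3⟩ := sep (X := W) (A := {⟨x, interior_subset hxV⟩})
    (B := Subtype.val ⁻¹' (interior W)ᶜ)
    isClosed_singleton (isOpen_interior.isClosed_compl.preimage continuous_subtype_val) (by
      rintro C hC ⟨a, ha, ha'⟩ ⟨b, hb, hb'⟩
      have hC' : IsPreconnected (Subtype.val '' C) := hC.image _ continuous_subtype_val.continuousOn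
      refine hcon (Subtype.val '' C) hC' ⟨x, ?_, b, ⟨b, hb, rfl⟩, ?_⟩ ?_
      · have : a = ⟨x, interior_subset hxV⟩ := ha'
        rw [this] at ha
        exact ⟨_, ha, rfl⟩
      · intro h
        exact hb' (h ▸ hxV)
      · rintro _ ⟨c, -, rfl⟩
        exact (hWO c.2).1)
  have hFW : Subtype.val '' F ⊆ interior W := by
    rintro _ ⟨c, hc, rfl⟩
    by_contra hn
    exact Set.disjoint_left.1 hF3 hc hn
  have hcl : IsClopen (Subtype.val '' F : Set X) := by
    refine ⟨(hF1.1.isCompact.image continuous_subtype_val).isClosed, ?_⟩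
    obtain ⟨O', hO'1, hO'2⟩ := isOpen_induced_iff.1 hF1.2
    have : (Subtype.val '' F : Set X) = O' ∩ interior W := by
      ext z
      constructor
      · intro hz
        refine ⟨?_, hFW hz⟩
        obtain ⟨c, hc, rfl⟩ := hz
        rw [← hO'2] at hc
        exact hc
      · rintro ⟨hz1, hz2⟩
        refine ⟨⟨z, interior_subset hz2⟩, ?_, rfl⟩
        rw [← hO'2]
        exact hz1
    rw [this]
    exact hO'1.inter isOpen_interior
  rcases isClopen_iff.1 hcl with h | h
  · have hx' : x ∈ (Subtype.val '' F : Set X) := ⟨_, hF2 rfl, rfl⟩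
    rw [h] at hx'
    exact hx'
  · have hy' : y ∈ (Subtype.val '' F : Set X) := by rw [h]; trivial
    exact (hWO (interior_subset (hFW hy'))).2 rfl

/-- A compact connected set with more than one point which is covered by finitely many closed sets
has a nontrivial connected subset in one of them. -/
theorem cover_lemma {X : Type*} [TopologicalSpace X] [T2Space X] {C : Set X} (hC : IsCompact C)
    (hC' : IsPreconnected C) (hC2 : C.Nontrivial) {ι : Type*} [Finite ι] {Z : ι → Set X}
    (hZ : ∀ i, IsClosed (Z i)) (hcov : C ⊆ ⋃ i, Z i) :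
    ∃ i, ∃ D : Set X, IsPreconnected D ∧ D.Nontrivial ∧ D ⊆ C ∩ Z i := by
  have hKc : CompactSpace C := isCompact_iff_compactSpace.1 hC
  have hpc : PreconnectedSpace C := isPreconnected_iff_preconnectedSpace.1 hC'
  have hnt : Nontrivial C := hC2.coe_sort
  obtain ⟨i, hi⟩ := nonempty_interior_of_iUnion_of_closed
    (f := fun i => (Subtype.val ⁻¹' Z i : Set C)) (fun i => (hZ i).preimage continuous_subtype_val)
    (by
      ext z
      simp only [mem_iUnion, mem_preimage, mem_univ, iff_true]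
      exact mem_iUnion.1 (hcov z.2))
  obtain ⟨D, hD1, hD2, hD3⟩ := bumping isOpen_interior hi
  refine ⟨i, Subtype.val '' D, hD1.image _ continuous_subtype_val.continuousOn,
    hD2.image Subtype.val_injective, ?_⟩
  rintro _ ⟨c, hc, rfl⟩
  have h : c ∈ (Subtype.val ⁻¹' Z i : Set C) := interior_subset (hD3 hc)
  exact ⟨c.2, h⟩

end Pool.Agent.Helper2.LP
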