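import Pool.Agent.Helper2.LP.Crossing

/-!
# Tilings of a strictly convex plane that avoid distance one
-/

open Set Metric Topology Module Filter

namespace Pool.Agent.Helper2.LP

variable {E : Type*} [NormedAddCommGroup E] [NormedSpace ℝ E]

/-- A family of pairwise disjoint open sets whose closures cover the space and which contain no
two points at distance one in the same set. -/
structure Tiling {ι : Type*} (U : ι → Set E) : Prop where
  op : ∀ i, IsOpen (U i)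
  disj : ∀ i j, i ≠ j → Disjoint (U i) (U j)
  cover : ∀ x, ∃ i, x ∈ closure (U i)
  avoid : ∀ i, ∀ x ∈ U i, ∀ y ∈ U i, ‖x - y‖ ≠ 1

namespace Tiling

variable {ι : Type*} {U : ι → Set E}

omit [NormedSpace ℝ E] in
lemma avoid' (h : Tiling U) {i : ι} {x y : E} (hx : x ∈ closure (U i))
    (hy : y ∈ interior (closure (U i))) : ‖x - y‖ ≠ 1 := by
  intro hxy
  -- translate of `U i` by `y - x`
  let T : E → E := fun z => z + (x - y)
  have hT : Continuous T := by fun_prop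
  have ho : IsOpen (T ⁻¹' U i ∩ interior (closure (U i))) :=
    ((h.op i).preimage hT).inter isOpen_interior
  have hne : (T ⁻¹' U i ∩ interior (closure (U i))).Nonempty := by
    let S : E → E := fun z => z + (y - x)
    have hS : Continuous S := by fun_prop
    have hSx : S x = y := by simp [S]
    have h1 : S ⁻¹' interior (closure (U i)) ∈ 𝓝 x :=
      (isOpen_interior.preimage hS).mem_nhds (by rw [mem_preimage, hSx]; exact hy)
    obtain ⟨z, hz1, hz2⟩ := mem_closure_iff_nhds.1 hx _ h1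
    refine ⟨S z, ?_, hz1⟩
    show S z + (x - y) ∈ U i
    have : S z + (x - y) = z := by
      show z + (y - x) + (x - y) = z
      abel
    rw [this]
    exact hz2
  obtain ⟨w, hw⟩ := hne
  have hw' : w ∈ closure (U i) := interior_subset hw.2
  obtain ⟨v, hv1, hv2⟩ := mem_closure_iff_nhds.1 hw' _ (ho.mem_nhds hw)
  have hv3 : v + (x - y) ∈ U i := hv1.1
  refine h.avoid i _ hv3 _ hv2 ?_
  rw [add_sub_cancel_left]
  exact hxy

omit [NormedSpace ℝ E] in
lemma nearTwo [Finite ι] (h : Tiling U) {i : ι} {x : E} (hx : x ∉ interior (closure (U i))) :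
    ∃ j, j ≠ i ∧ x ∈ closure (U j) := by
  have h1 : x ∈ closure (closure (U i))ᶜ := by
    rw [closure_compl]
    exact hx
  have h2 : (closure (U i))ᶜ ⊆ ⋃ j : {j : ι // j ≠ i}, closure (U j) := by
    intro y hy
    obtain ⟨j, hj⟩ := h.cover y
    refine mem_iUnion.2 ⟨⟨j, ?_⟩, hj⟩
    rintro rfl
    exact hy hj
  have h3 : IsClosed (⋃ j : {j : ι // j ≠ i}, closure (U j)) :=
    isClosed_iUnion_of_finite fun j => isClosed_closure
  have h4 : x ∈ ⋃ j : {j : ι // j ≠ i}, closure (U j) := closure_minimal h2 h3 h1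
  obtain ⟨j, hj⟩ := mem_iUnion.1 h4
  exact ⟨j, j.2, hj⟩

omit [NormedSpace ℝ E] in
lemma sweep (h : Tiling U) {i : ι} {Γ : Set E} (hΓ : IsPreconnected Γ) (hΓi : Γ ⊆ closure (U i))
    {p q y : E} (hp : p ∈ Γ) (hq : q ∈ Γ) (h1 : ‖y - p‖ < 1) (h2 : 1 < ‖y - q‖) :
    y ∉ closure (U i) := by
  intro hy
  have ho : IsOpen {z : E | ‖z - p‖ < 1 ∧ 1 < ‖z - q‖} := by
    have o1 : IsOpen {z : E | ‖z - p‖ < 1} := isOpen_lt (by fun_prop) continuous_const
    have o2 : IsOpen {z : E | 1 < ‖z - q‖} := isOpen_lt continuous_const (by fun_prop)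
    exact o1.inter o2
  obtain ⟨z, hz1, hz2⟩ := mem_closure_iff_nhds.1 hy _ (ho.mem_nhds ⟨h1, h2⟩)
  have hc : ContinuousOn (fun r => ‖z - r‖) Γ := by fun_prop
  obtain ⟨r, hr1, hr2⟩ := hΓ.intermediate_value hp hq hc ⟨hz1.1.le, hz1.2.le⟩
  have hz3 : z ∈ interior (closure (U i)) :=
    (interior_maximal subset_closure (h.op i)) hz2
  refine h.avoid' (hΓi hr1) hz3 ?_
  rw [norm_sub_rev]
  exact hr2

end Tiling

theorem three_points [FiniteDimensional ℝ E] {Γ : Set E} (hΓ : IsPreconnected Γ)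
    (hΓ2 : Γ.Nontrivial) :
    ∃ d : E, ‖d‖ = 1 ∧ ∀ η > 0, ∀ ρ > 0, ∃ p ∈ Γ, ∃ x ∈ Γ, ∃ q ∈ Γ, ∃ t1 t2 : ℝ, ∃ d1 d2 : E,
      0 < t1 ∧ t1 ≤ ρ ∧ 0 < t2 ∧ t2 ≤ ρ ∧ ‖d1 - d‖ < η ∧ ‖d2 - d‖ < η ∧
      p - x = t1 • d1 ∧ x - q = t2 • d2 := by
  obtain ⟨q, hq, r, hr, hqr⟩ := hΓ2
  have hR : 0 < ‖r - q‖ := norm_pos_iff.2 (sub_ne_zero.2 (Ne.symm hqr))
  have hz : ∀ n : ℕ, ∃ z ∈ Γ, ‖z - q‖ = ‖r - q‖ / (n + 1) := by
    intro n
    have hc : ContinuousOn (fun z => ‖z - q‖) Γ := by fun_prop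
    have hm : ‖r - q‖ / (n + 1) ∈ Icc ‖q - q‖ ‖r - q‖ := by
      constructor
      · rw [sub_self, norm_zero]; positivity
      · apply div_le_self hR.le
        have : (0 : ℝ) ≤ n := n.cast_nonneg
        linarith
    obtain ⟨z, hz1, hz2⟩ := hΓ.intermediate_value hq hr hc hm
    exact ⟨z, hz1, hz2⟩
  choose z hzΓ hzn using hz
  have hzpos : ∀ n, 0 < ‖z n - q‖ := by
    intro n
    rw [hzn]
    positivity
  have hzq : Tendsto (fun n => ‖z n - q‖) atTop (𝓝 0) := by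
    simp_rw [hzn]
    have := tendsto_one_div_add_atTop_nhds_zero_nat (𝕜 := ℝ)
    have h2 := this.const_mul ‖r - q‖
    rw [mul_zero] at h2
    refine h2.congr fun n => ?_
    rw [mul_one_div]
  have hzq' : Tendsto z atTop (𝓝 q) := tendsto_iff_norm_sub_tendsto_zero.2 hzq
  let D : ℕ → E := fun n => ‖z n - q‖⁻¹ • (z n - q)
  have hD : ∀ n, D n ∈ sphere (0 : E) 1 := by
    intro n
    rw [mem_sphere_zero_iff_norm, norm_smul, norm_inv, norm_norm, inv_mul_cancel₀ (hzpos n).ne']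
  obtain ⟨d, hd, φ, hφ, hlim⟩ := (isCompact_sphere (0 : E) 1).tendsto_subseq hD
  refine ⟨d, mem_sphere_zero_iff_norm.1 hd, ?_⟩
  intro η hη ρ hρ
  have hφ' : Tendsto φ atTop atTop := hφ.tendsto_atTop
  have e1 : ∀ᶠ n in atTop, ‖D (φ n) - d‖ < η := by
    have := tendsto_iff_norm_sub_tendsto_zero.1 hlim
    exact this.eventually_lt_const hη
  have e2 : ∀ᶠ n in atTop, ‖z (φ n) - q‖ < ρ / 2 :=
    (hzq.comp hφ').eventually_lt_const (by positivity)
  obtain ⟨m, hm1, hm2⟩ := (e1.and e2).exists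
  have hpq : z (φ m) - q ≠ 0 := norm_pos_iff.1 (hzpos (φ m))
  have hG : ContinuousAt (fun x : E => ‖z (φ m) - x‖⁻¹ • (z (φ m) - x)) q := by
    apply ContinuousAt.smul
    · apply ContinuousAt.inv₀ (by fun_prop)
      exact norm_ne_zero_iff.2 hpq
    · fun_prop
  have e3 : ∀ᶠ n in atTop, ‖‖z (φ m) - z (φ n)‖⁻¹ • (z (φ m) - z (φ n)) - d‖ < η := by
    have h1 : Tendsto (fun n => ‖z (φ m) - z (φ n)‖⁻¹ • (z (φ m) - z (φ n))) atTop
        (𝓝 (‖z (φ m) - q‖⁻¹ • (z (φ m) - q))) := hG.tendsto.comp (hzq'.comp hφ')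
    have h2 := (h1.sub_const d).norm
    exact h2.eventually_lt_const hm1
  have e4 : ∀ᶠ n in atTop, ‖z (φ m) - z (φ n)‖ < ρ := by
    have h1 : Tendsto (fun n => ‖z (φ m) - z (φ n)‖) atTop (𝓝 ‖z (φ m) - q‖) :=
      ((tendsto_const_nhds (x := z (φ m))).sub (hzq'.comp hφ')).norm
    exact h1.eventually_lt_const (by linarith)
  have e5 : ∀ᶠ n in atTop, 0 < ‖z (φ m) - z (φ n)‖ := by
    have h1 : Tendsto (fun n => ‖z (φ m) - z (φ n)‖) atTop (𝓝 ‖z (φ m) - q‖) :=
      ((tendsto_const_nhds (x := z (φ m))).sub (hzq'.comp hφ')).norm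
    exact h1.eventually_const_lt (hzpos (φ m))
  obtain ⟨n, hn1, hn2, hn3, hn4, hn5⟩ := (e1.and (e2.and (e3.and (e4.and e5)))).exists
  refine ⟨z (φ m), hzΓ _, z (φ n), hzΓ _, q, hq, ‖z (φ m) - z (φ n)‖, ‖z (φ n) - q‖,
    ‖z (φ m) - z (φ n)‖⁻¹ • (z (φ m) - z (φ n)), D (φ n), hn5, hn4.le, hzpos _, ?_, hn3, hn1, ?_, ?_⟩
  · linarith
  · rw [smul_smul, mul_inv_cancel₀ hn5.ne', one_smul]
  · simp only [D]
    rw [smul_smul, mul_inv_cancel₀ (hzpos _).ne', one_smul]

theorem coords [FiniteDimensional ℝ E] [StrictConvexSpace ℝ E] (h2 : finrank ℝ E = 2) {d : E}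
    (hd : ‖d‖ = 1) :
    ∃ (α β : E →ₗ[ℝ] ℝ) (u0 : E), ‖u0‖ = 1 ∧ (∀ z, z = α z • u0 + β z • d) ∧ β d = 1 ∧ β u0 = 0 ∧
      (∀ z, |α z| ≤ ‖z‖) ∧ (∀ u, ‖u‖ = 1 → β u ≠ 0 → |α u| < 1) := by
  have hd0 : d ≠ 0 := norm_pos_iff.1 (by rw [hd]; norm_num)
  have hlt : (Submodule.span ℝ {d}) < ⊤ := by
    rw [lt_top_iff_ne_top]
    intro h
    have h3 := finrank_span_singleton (K := ℝ) hd0
    rw [h, finrank_top, h2] at h3
    norm_num at h3
  obtain ⟨f, hf0, hf⟩ := Submodule.exists_le_ker_of_lt_top _ hlt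
  have hfd : f d = 0 := hf (Submodule.mem_span_singleton_self d)
  have hfc : Continuous f := f.continuous_of_finiteDimensional
  obtain ⟨u0, hu0, hmax⟩ := (isCompact_sphere (0 : E) 1).exists_isMaxOn
    ⟨d, mem_sphere_zero_iff_norm.2 hd⟩ hfc.continuousOn
  have hu0' : ‖u0‖ = 1 := mem_sphere_zero_iff_norm.1 hu0
  have hmax' : ∀ z, f z ≤ ‖z‖ * f u0 := by
    intro z
    rcases eq_or_ne z 0 with rfl | hz
    · simp
    · have hz' : 0 < ‖z‖ := norm_pos_iff.2 hz
      have h3 : f (‖z‖⁻¹ • z) ≤ f u0 := hmax (by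
        rw [mem_sphere_zero_iff_norm, norm_smul, norm_inv, norm_norm, inv_mul_cancel₀ hz'.ne'])
      rw [map_smul, smul_eq_mul, inv_mul_le_iff₀ hz'] at h3
      exact h3
  have hM : 0 < f u0 := by
    obtain ⟨z, hz⟩ : ∃ z, f z ≠ 0 := by
      by_contra hcon
      push Not at hcon
      exact hf0 (LinearMap.ext hcon)
    by_contra hcon
    have h3 := hmax' z
    have h4 := hmax' (-z)
    rw [map_neg, norm_neg] at h4
    have h5 : ‖z‖ * f u0 ≤ 0 := mul_nonpos_of_nonneg_of_nonpos (norm_nonneg _) (not_lt.1 hcon)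
    exact hz (by linarith)
  let α : E →ₗ[ℝ] ℝ := (f u0)⁻¹ • f
  have hα : ∀ z, α z = (f u0)⁻¹ * f z := fun z => rfl
  have hαd : α d = 0 := by rw [hα, hfd, mul_zero]
  have hαu : α u0 = 1 := by rw [hα, inv_mul_cancel₀ hM.ne']
  have hα1 : ∀ z, α z ≤ ‖z‖ := by
    intro z
    rw [hα, inv_mul_le_iff₀ hM, mul_comm]
    exact hmax' z
  have hα2 : ∀ z, |α z| ≤ ‖z‖ := by
    intro z
    refine abs_le.2 ⟨?_, hα1 z⟩
    have := hα1 (-z)
    rw [map_neg, norm_neg] at this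
    linarith
  have hli : LinearIndependent ℝ ![u0, d] := by
    rw [LinearIndependent.pair_iff]
    intro s t hst
    have h3 := congrArg α hst
    rw [map_add, map_smul, map_smul, hαd, hαu, map_zero] at h3
    simp at h3
    subst h3
    simp at hst
    exact ⟨rfl, hst.resolve_right hd0⟩
  let b := basisOfLinearIndependentOfCardEqFinrank hli (by simp [h2])
  have hb0 : b 0 = u0 := by simp [b]
  have hb1 : b 1 = d := by simp [b]
  have hrepr : ∀ z, z = b.coord 0 z • u0 + b.coord 1 z • d := by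
    intro z
    have := b.sum_repr z
    rw [Fin.sum_univ_two, hb0, hb1] at this
    exact this.symm
  have hα0 : ∀ z, α z = b.coord 0 z := by
    intro z
    conv_lhs => rw [hrepr z]
    rw [map_add, map_smul, map_smul, hαd, hαu]
    simp
  refine ⟨α, b.coord 1, u0, hu0', ?_, ?_, ?_, hα2, ?_⟩
  · intro z
    rw [hα0]
    exact hrepr z
  · rw [← hb1]; simp
  · rw [← hb0]; simp
  · intro u hu hβ
    have hβ0 : b.coord 1 u0 = 0 := by rw [← hb0]; simp
    have key : ∀ v : E, ‖v‖ = 1 → b.coord 1 v ≠ 0 → α v < 1 := by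
      intro v hv hβv
      have hne : v ≠ u0 := by
        rintro rfl
        exact hβv hβ0
      have h3 : ‖(1 / 2 : ℝ) • v + (1 / 2 : ℝ) • u0‖ < 1 :=
        norm_combo_lt_of_ne hv.le hu0'.le hne (by norm_num) (by norm_num) (by norm_num)
      have h4 := hα1 ((1 / 2 : ℝ) • v + (1 / 2 : ℝ) • u0)
      rw [map_add, map_smul, map_smul, hαu] at h4
      simp only [smul_eq_mul] at h4
      linarith
    refine abs_lt.2 ⟨?_, key u hu hβ⟩
    have := key (-u) (by rw [norm_neg, hu]) (by rw [map_neg]; exact neg_ne_zero.2 hβ)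
    rw [map_neg] at this
    linarith

theorem uniform [FiniteDimensional ℝ E] {α β : E →ₗ[ℝ] ℝ} {u0 d : E} (hu0 : ‖u0‖ = 1)
    (hz : ∀ z, z = α z • u0 + β z • d) (hα : ∀ u, ‖u‖ = 1 → β u ≠ 0 → |α u| < 1)
    {δ : ℝ} (hδ : 0 < δ) :
    ∃ η > 0, ∀ u d' : E, ‖u‖ = 1 → δ ≤ β u → ‖d' - d‖ < η → ‖u - δ • d'‖ < 1 := by
  have key : ∀ u, ‖u‖ = 1 → δ ≤ β u → ‖u - δ • d‖ < 1 := by
    intro u hu hβ
    obtain ⟨a, b, ha, hb, hab⟩ : ∃ a b, α u = a ∧ β u = b ∧ u = a • u0 + b • d :=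
      ⟨_, _, rfl, rfl, hz u⟩
    rw [hb] at hβ
    have hb0 : 0 < b := lt_of_lt_of_le hδ hβ
    have ha1 : |a| < 1 := by
      rw [← ha]
      exact hα u hu (by rw [hb]; exact hb0.ne')
    have h1 : u - δ • d = ((b - δ) / b) • u + (δ / b) • (a • u0) := by
      rw [hab]
      match_scalars
      · field_simp
        ring
      · field_simp
    rw [h1]
    calc ‖((b - δ) / b) • u + (δ / b) • (a • u0)‖
        ≤ ‖((b - δ) / b) • u‖ + ‖(δ / b) • (a • u0)‖ := norm_add_le _ _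
      _ = (b - δ) / b + δ / b * |a| := by
          rw [norm_smul, norm_smul, norm_smul, hu, hu0, Real.norm_eq_abs, Real.norm_eq_abs,
            Real.norm_eq_abs, abs_of_nonneg (div_nonneg (sub_nonneg.2 hβ) hb0.le),
            abs_of_nonneg (div_nonneg hδ.le hb0.le)]
          ring
      _ < (b - δ) / b + δ / b * 1 := by
          have : 0 < δ / b := div_pos hδ hb0
          gcongr
      _ = 1 := by
          field_simp
          ring
  have hβc : Continuous β := β.continuous_of_finiteDimensional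
  let S : Set E := sphere (0 : E) 1 ∩ {u | δ ≤ β u}
  have hS : IsCompact S := (isCompact_sphere (0 : E) 1).inter_right
    (isClosed_le continuous_const hβc)
  rcases S.eq_empty_or_nonempty with he | hne
  · refine ⟨1, one_pos, ?_⟩
    intro u d' hu hβ
    exfalso
    have : u ∈ S := ⟨mem_sphere_zero_iff_norm.2 hu, hβ⟩
    rw [he] at this
    exact this
  · obtain ⟨u1, hu1, hmax⟩ := hS.exists_isMaxOn hne
      (f := fun u => ‖u - δ • d‖) (by fun_prop)
    have h1 : ‖u1 - δ • d‖ < 1 := key u1 (mem_sphere_zero_iff_norm.1 hu1.1) hu1.2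
    refine ⟨(1 - ‖u1 - δ • d‖) / δ, div_pos (by linarith) hδ, ?_⟩
    intro u d' hu hβ hd'
    have h2 : ‖u - δ • d‖ ≤ ‖u1 - δ • d‖ := hmax ⟨mem_sphere_zero_iff_norm.2 hu, hβ⟩
    have h3 : u - δ • d' = (u - δ • d) - δ • (d' - d) := by
      rw [smul_sub]; abel
    rw [h3]
    calc ‖(u - δ • d) - δ • (d' - d)‖ ≤ ‖u - δ • d‖ + ‖δ • (d' - d)‖ := norm_sub_le _ _
      _ = ‖u - δ • d‖ + δ * ‖d' - d‖ := by
          rw [norm_smul, Real.norm_eq_abs, abs_of_pos hδ]
      _ < ‖u1 - δ • d‖ + δ * ((1 - ‖u1 - δ • d‖) / δ) := by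
          have := mul_lt_mul_of_pos_left hd' hδ
          linarith
      _ = 1 := by
          rw [mul_div_cancel₀ _ hδ.ne']
          ring

lemma inside {u d' : E} {δ t : ℝ} (hu : ‖u‖ = 1) (hδ : 0 < δ) (h : ‖u - δ • d'‖ < 1) (ht : 0 < t)
    (htδ : t ≤ δ) : ‖u - t • d'‖ < 1 := by
  have h1 : u - t • d' = (1 - t / δ) • u + (t / δ) • (u - δ • d') := by
    match_scalars
    · ring
    · field_simp
  have h2 : 0 < t / δ := div_pos ht hδ
  have h3 : t / δ ≤ 1 := (div_le_one hδ).2 htδ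
  rw [h1]
  calc ‖(1 - t / δ) • u + (t / δ) • (u - δ • d')‖
      ≤ ‖(1 - t / δ) • u‖ + ‖(t / δ) • (u - δ • d')‖ := norm_add_le _ _
    _ = (1 - t / δ) + t / δ * ‖u - δ • d'‖ := by
        rw [norm_smul, norm_smul, hu, Real.norm_eq_abs, Real.norm_eq_abs,
          abs_of_nonneg (by linarith), abs_of_pos h2, mul_one]
    _ < (1 - t / δ) + t / δ * 1 := by gcongr
    _ = 1 := by ring

lemma outside {u d' : E} {δ t : ℝ} (hu : ‖u‖ = 1) (hδ : 0 < δ) (h : ‖u - δ • d'‖ < 1)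
    (ht : 0 < t) : 1 < ‖u + t • d'‖ := by
  have hs : 0 < t + δ := by linarith
  have h1 : u = (δ / (t + δ)) • (u + t • d') + (t / (t + δ)) • (u - δ • d') := by
    match_scalars
    · field_simp
      ring
    · field_simp
      ring
  have h2 : 0 < δ / (t + δ) := div_pos hδ hs
  have h3 : 0 < t / (t + δ) := div_pos ht hs
  have h4 : (1 : ℝ) ≤ δ / (t + δ) * ‖u + t • d'‖ + t / (t + δ) * ‖u - δ • d'‖ := by
    calc (1 : ℝ) = ‖u‖ := hu.symm
      _ = ‖(δ / (t + δ)) • (u + t • d') + (t / (t + δ)) • (u - δ • d')‖ := by rw [← h1]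
      _ ≤ ‖(δ / (t + δ)) • (u + t • d')‖ + ‖(t / (t + δ)) • (u - δ • d')‖ := norm_add_le _ _
      _ = _ := by
        rw [norm_smul, norm_smul, Real.norm_eq_abs, Real.norm_eq_abs, abs_of_pos h2,
          abs_of_pos h3]
  have h5 : t / (t + δ) * ‖u - δ • d'‖ < t / (t + δ) := by
    calc t / (t + δ) * ‖u - δ • d'‖ < t / (t + δ) * 1 := by gcongr
      _ = _ := mul_one _
  have h6 : δ / (t + δ) + t / (t + δ) = 1 := by
    field_simp
    ring
  have h7 : δ / (t + δ) * 1 < δ / (t + δ) * ‖u + t • d'‖ := by linarith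
  exact lt_of_mul_lt_mul_left h7 h2.le

lemma rank_gt (h2 : finrank ℝ E = 2) : 1 < Module.rank ℝ E := by
  have hfd : FiniteDimensional ℝ E := finite_of_finrank_eq_succ h2
  rw [← finrank_eq_rank, h2]
  norm_num

/-- Every unit vector has a unit vector at distance one. -/
lemma adjacent (h2 : finrank ℝ E = 2) {v : E} (hv : ‖v‖ = 1) : ∃ w, ‖w‖ = 1 ∧ ‖v - w‖ = 1 := by
  have hp := isPreconnected_sphere (rank_gt h2) (0 : E) 1
  have hc : ContinuousOn (fun w => ‖v - w‖) (sphere (0 : E) 1) := by fun_prop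
  obtain ⟨w, hw1, hw2⟩ := hp.intermediate_value (a := v) (b := -v)
    (mem_sphere_zero_iff_norm.2 hv) (mem_sphere_zero_iff_norm.2 (by rw [norm_neg, hv])) hc
    (show (1 : ℝ) ∈ Icc ‖v - v‖ ‖v - -v‖ by
      constructor
      · rw [sub_self, norm_zero]; norm_num
      · rw [sub_neg_eq_add, ← two_smul ℝ v, norm_smul, hv]; norm_num)
  exact ⟨w, mem_sphere_zero_iff_norm.1 hw1, hw2⟩

/-- A unit vector `v` has a neighbour `w` with `β w ≥ β v / 2`. -/
lemma adjacent' (h2 : finrank ℝ E = 2) (β : E →ₗ[ℝ] ℝ) {v : E} (hv : ‖v‖ = 1) :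
    ∃ w, ‖w‖ = 1 ∧ ‖v - w‖ = 1 ∧ β v / 2 ≤ β w := by
  obtain ⟨w, hw1, hw2⟩ := adjacent h2 hv
  rcases le_total (β v / 2) (β w) with h | h
  · exact ⟨w, hw1, hw2, h⟩
  · refine ⟨v - w, hw2, ?_, ?_⟩
    · rw [sub_sub_cancel, hw1]
    · rw [map_sub]
      linarith

/-- The part of the unit circle above a level is connected. -/
lemma cap_preconnected [FiniteDimensional ℝ E] (β : E →ₗ[ℝ] ℝ) {c : ℝ} (hc : 0 ≤ c) :
    IsPreconnected {u : E | ‖u‖ = 1 ∧ c < β u} := by
  have hβc : Continuous β := β.continuous_of_finiteDimensional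
  have hconv : Convex ℝ {z : E | c * ‖z‖ < β z} := by
    intro x hx y hy a b ha hb hab
    have hx' : c * ‖x‖ < β x := hx
    have hy' : c * ‖y‖ < β y := hy
    show c * ‖a • x + b • y‖ < β (a • x + b • y)
    rw [map_add, map_smul, map_smul, smul_eq_mul, smul_eq_mul]
    calc c * ‖a • x + b • y‖ ≤ c * (a * ‖x‖ + b * ‖y‖) := by
          apply mul_le_mul_of_nonneg_left _ hc
          refine (norm_add_le _ _).trans ?_
          rw [norm_smul, norm_smul, Real.norm_of_nonneg ha, Real.norm_of_nonneg hb]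
      _ = a * (c * ‖x‖) + b * (c * ‖y‖) := by ring
      _ < a * β x + b * β y := by
          rcases eq_or_lt_of_le ha with h0 | h0
          · subst h0
            have hb1 : b = 1 := by linarith
            subst hb1
            linarith
          · have h3 : a * (c * ‖x‖) < a * β x := mul_lt_mul_of_pos_left hx' h0
            have h4 : b * (c * ‖y‖) ≤ b * β y := mul_le_mul_of_nonneg_left hy'.le hb
            linarith
  have himg : {u : E | ‖u‖ = 1 ∧ c < β u} = (fun z => ‖z‖⁻¹ • z) '' {z : E | c * ‖z‖ < β z} := by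
    ext u
    constructor
    · rintro ⟨hu1, hu2⟩
      refine ⟨u, ?_, ?_⟩
      · show c * ‖u‖ < β u
        rw [hu1, mul_one]
        exact hu2
      · simp only
        rw [hu1, inv_one, one_smul]
    · rintro ⟨z, hz, rfl⟩
      have hz' : c * ‖z‖ < β z := hz
      have hz0 : z ≠ 0 := by
        rintro rfl
        simp at hz'
      have hn : 0 < ‖z‖ := norm_pos_iff.2 hz0
      refine ⟨?_, ?_⟩
      · simp only
        rw [norm_smul, norm_inv, norm_norm, inv_mul_cancel₀ hn.ne']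
      · simp only
        rw [map_smul, smul_eq_mul, lt_inv_mul_iff₀ hn, mul_comm]
        exact hz'
  rw [himg]
  apply hconv.isPreconnected.image
  intro z hz
  have hz' : c * ‖z‖ < β z := hz
  have hz0 : z ≠ 0 := by
    rintro rfl
    simp at hz'
  apply ContinuousAt.continuousWithinAt
  apply ContinuousAt.smul
  · exact ContinuousAt.inv₀ (by fun_prop) (norm_ne_zero_iff.2 hz0)
  · fun_prop

/-- A vector which is not a multiple of a given one. -/
lemma exists_indep (h2 : finrank ℝ E = 2) (e : E) : ∃ g : E, ∀ c : ℝ, g ≠ c • e := by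
  by_contra hcon
  push Not at hcon
  have h3 : (Submodule.span ℝ {e}) = ⊤ := by
    rw [Submodule.eq_top_iff']
    intro g
    obtain ⟨c, hc⟩ := hcon g
    exact Submodule.mem_span_singleton.2 ⟨c, hc.symm⟩
  have h4 : finrank ℝ (Submodule.span ℝ {e}) ≤ 1 := by
    have := finrank_span_le_card (R := ℝ) ({e} : Set E)
    simpa using this
  rw [h3, finrank_top, h2] at h4
  norm_num at h4

lemma combo_aux (e1 e2 : E) {t : ℝ} (ht : 0 < t) :
    (1 / (1 + t)) • ((1 + t) • e2 - t • e1) + (t / (1 + t)) • e1 = e2 := by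
  have h6 : (1 + t) ≠ 0 := by linarith
  match_scalars
  · field_simp
  · field_simp
    ring

/-- If `a`, `b` are at distance one and both are off `Z i ∪ Z j`, then `a` is not in
`Z k ∩ Z l`. -/
theorem pure [StrictConvexSpace ℝ E] (h2 : finrank ℝ E = 2) {ι : Type*} [Finite ι] {U : ι → Set E}
    (h : Tiling U) {i j k l : ι} (hall : ∀ m, m = i ∨ m = j ∨ m = k ∨ m = l)
    {a b : E} (hab : ‖b - a‖ = 1) (hai : a ∉ closure (U i)) (haj : a ∉ closure (U j))
    (hbi : b ∉ closure (U i)) (hbj : b ∉ closure (U j)) (hak : a ∈ closure (U k))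
    (hal : a ∈ closure (U l)) : False := by
  obtain ⟨g, hg⟩ := exists_indep h2 (b - a)
  have hne : ∀ s : ℝ, (b - a) + s • g ≠ 0 := by
    intro s hs
    rcases eq_or_ne s 0 with rfl | hs0
    · rw [zero_smul, add_zero] at hs
      rw [hs, norm_zero] at hab
      norm_num at hab
    · apply hg (-s⁻¹)
      have : s • g = -(b - a) := by
        rw [eq_neg_iff_add_eq_zero, add_comm]
        exact hs
      rw [neg_smul, ← smul_neg, ← this, smul_smul, inv_mul_cancel₀ hs0, one_smul]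
  let γ : ℝ → E := fun s => ‖(b - a) + s • g‖⁻¹ • ((b - a) + s • g)
  have hγc : Continuous γ := by
    apply Continuous.smul
    · exact Continuous.inv₀ (by fun_prop) (fun s => norm_ne_zero_iff.2 (hne s))
    · fun_prop
  have hγ1 : ∀ s, ‖γ s‖ = 1 := by
    intro s
    show ‖‖(b - a) + s • g‖⁻¹ • ((b - a) + s • g)‖ = 1
    rw [norm_smul, norm_inv, norm_norm, inv_mul_cancel₀ (norm_ne_zero_iff.2 (hne s))]
  have hγ0 : γ 0 = b - a := by
    show ‖(b - a) + (0 : ℝ) • g‖⁻¹ • ((b - a) + (0 : ℝ) • g) = b - a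
    rw [zero_smul, add_zero, hab, inv_one, one_smul]
  have hγne : ∀ s, s ≠ 0 → γ s ≠ b - a := by
    intro s hs heq
    have h3 : ‖(b - a) + s • g‖ • γ s = (b - a) + s • g := by
      show ‖(b - a) + s • g‖ • (‖(b - a) + s • g‖⁻¹ • ((b - a) + s • g)) = _
      rw [smul_smul, mul_inv_cancel₀ (norm_ne_zero_iff.2 (hne s)), one_smul]
    rw [heq] at h3
    apply hg (s⁻¹ * (‖(b - a) + s • g‖ - 1))
    have h4 : s • g = (‖(b - a) + s • g‖ - 1) • (b - a) := by
      rw [sub_smul, one_smul, h3]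
      abel
    rw [mul_smul, ← h4, smul_smul, inv_mul_cancel₀ hs, one_smul]
  -- the neighbourhood of `b`
  have hNb : ((closure (U i))ᶜ ∩ (closure (U j))ᶜ) ∈ 𝓝 b :=
    (isClosed_closure.isOpen_compl.inter isClosed_closure.isOpen_compl).mem_nhds ⟨hbi, hbj⟩
  have hNa : ((closure (U i))ᶜ ∩ (closure (U j))ᶜ) ∈ 𝓝 a :=
    (isClosed_closure.isOpen_compl.inter isClosed_closure.isOpen_compl).mem_nhds ⟨hai, haj⟩
  have hbc : Continuous fun s => a + γ s := by fun_prop
  have hb0 : a + γ 0 = b := by rw [hγ0]; abel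
  obtain ⟨σ, hσ, hσN⟩ : ∃ σ > 0, ∀ s ∈ Icc (0 : ℝ) σ,
      a + γ s ∈ ((closure (U i))ᶜ ∩ (closure (U j))ᶜ) := by
    have h3 : ∀ᶠ s in 𝓝 (0 : ℝ), a + γ s ∈ ((closure (U i))ᶜ ∩ (closure (U j))ᶜ) := by
      apply hbc.continuousAt.eventually_mem
      rw [hb0]
      exact hNb
    obtain ⟨ε, hε, hε'⟩ := Metric.eventually_nhds_iff.1 h3
    refine ⟨ε / 2, by positivity, ?_⟩
    intro s hs
    apply hε'
    rw [dist_zero_right, Real.norm_eq_abs, abs_of_nonneg hs.1]
    linarith [hs.2]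
  -- the arc lies in `Z k ∩ Z l`
  have harc : ∀ s ∈ Icc (0 : ℝ) σ, a + γ s ∈ closure (U k) ∧ a + γ s ∈ closure (U l) := by
    intro s hs
    obtain ⟨h3, h4⟩ := hσN s hs
    have hd : ‖a - (a + γ s)‖ = 1 := by
      rw [sub_add_cancel_left, norm_neg, hγ1]
    have hk : a + γ s ∉ interior (closure (U k)) := fun h' => h.avoid' hak h' hd
    have hl : a + γ s ∉ interior (closure (U l)) := fun h' => h.avoid' hal h' hd
    obtain ⟨m, hm1, hm2⟩ := h.nearTwo hk
    obtain ⟨n, hn1, hn2⟩ := h.nearTwo hl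
    constructor
    · rcases hall n with rfl | rfl | rfl | rfl
      · exact absurd hn2 h3
      · exact absurd hn2 h4
      · exact hn2
      · exact absurd rfl hn1
    · rcases hall m with rfl | rfl | rfl | rfl
      · exact absurd hm2 h3
      · exact absurd hm2 h4
      · exact absurd rfl hm1
      · exact hm2
  have hΓp : IsPreconnected ((fun s => a + γ s) '' Icc (0 : ℝ) σ) :=
    isPreconnected_Icc.image _ hbc.continuousOn
  -- the point near `a`
  set e1 := γ 0 with he1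
  set e2 := γ σ with he2
  have he12 : e1 ≠ e2 := by
    rw [hγ0]
    exact (hγne σ hσ.ne').symm
  have hzc : ∀ᶠ t in 𝓝[>] (0 : ℝ), a + t • (e1 - e2) ∈ ((closure (U i))ᶜ ∩ (closure (U j))ᶜ) := by
    have h3 : ContinuousAt (fun t : ℝ => a + t • (e1 - e2)) 0 := by fun_prop
    apply (h3.eventually_mem _).filter_mono nhdsWithin_le_nhds
    rw [zero_smul, add_zero]
    exact hNa
  have ht1 : ∀ᶠ t in 𝓝[>] (0 : ℝ), t ∈ Ioo (0 : ℝ) 1 := Ioo_mem_nhdsGT one_pos
  obtain ⟨t, htz, ht0, ht1⟩ := (hzc.and ht1).exists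
  have hz1 : ‖a + t • (e1 - e2) - (a + e1)‖ < 1 := by
    have h3 : a + t • (e1 - e2) - (a + e1) = -((1 - t) • e1 + t • e2) := by
      module
    rw [h3, norm_neg]
    exact norm_combo_lt_of_ne (hγ1 _).le (hγ1 _).le he12 (by linarith) ht0 (by ring)
  have hz2 : 1 < ‖a + t • (e1 - e2) - (a + e2)‖ := by
    have h3 : a + t • (e1 - e2) - (a + e2) = -((1 + t) • e2 - t • e1) := by
      module
    rw [h3, norm_neg]
    by_contra hcon
    have hcon' : ‖(1 + t) • e2 - t • e1‖ ≤ 1 := not_lt.1 hcon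
    have hne2 : (1 + t) • e2 - t • e1 ≠ e1 := by
      intro h4
      apply he12
      have h5 : (1 + t) • (e2 - e1) = 0 := by
        have : (1 + t) • (e2 - e1) = ((1 + t) • e2 - t • e1) - e1 := by module
        rw [this, h4, sub_self]
      have h6 : (1 + t) ≠ 0 := by linarith
      have h7 := (smul_eq_zero.1 h5).resolve_left h6
      exact (sub_eq_zero.1 h7).symm
    have h8 : ‖(1 / (1 + t)) • ((1 + t) • e2 - t • e1) + (t / (1 + t)) • e1‖ < 1 :=
      norm_combo_lt_of_ne hcon' (hγ1 _).le hne2 (by positivity) (by positivity)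
        (by field_simp)
    have h9 : (1 / (1 + t)) • ((1 + t) • e2 - t • e1) + (t / (1 + t)) • e1 = e2 :=
      combo_aux e1 e2 ht0
    rw [h9, hγ1] at h8
    exact lt_irrefl _ h8
  have hz3 : ∀ m, (∀ s ∈ Icc (0 : ℝ) σ, a + γ s ∈ closure (U m)) →
      a + t • (e1 - e2) ∉ closure (U m) := by
    intro m hm
    refine h.sweep hΓp ?_ (p := a + e1) (q := a + e2) ⟨0, ⟨le_rfl, hσ.le⟩, rfl⟩
      ⟨σ, ⟨hσ.le, le_rfl⟩, rfl⟩ hz1 hz2
    rintro _ ⟨s, hs, rfl⟩
    exact hm s hs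
  obtain ⟨m, hm⟩ := h.cover (a + t • (e1 - e2))
  rcases hall m with rfl | rfl | rfl | rfl
  · exact htz.1 hm
  · exact htz.2 hm
  · exact hz3 _ (fun s hs => (harc s hs).1) hm
  · exact hz3 _ (fun s hs => (harc s hs).2) hm

/-- A nontrivial connected wall between two of the closed sets. -/
theorem wall (h2 : finrank ℝ E = 2) {ι : Type*} [Finite ι] {U : ι → Set E} (h : Tiling U) :
    ∃ i j, j ≠ i ∧ ∃ Γ : Set E, IsPreconnected Γ ∧ Γ.Nontrivial ∧ Γ ⊆ closure (U i) ∧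
      Γ ⊆ closure (U j) := by
  obtain ⟨i, hi⟩ := h.cover 0
  obtain ⟨a, -, ha⟩ := mem_closure_iff_nhds.1 hi _ univ_mem
  have haW : a ∈ interior (closure (U i)) := (interior_maximal subset_closure (h.op i)) ha
  have hnt : Nontrivial E := by
    apply nontrivial_of_finrank_pos (R := ℝ)
    rw [h2]
    norm_num
  obtain ⟨u, hu⟩ := exists_norm_eq E (zero_le_one (α := ℝ))
  have hbR : a + u ∈ (closure (U i))ᶜ := by
    intro hb
    refine h.avoid' hb haW ?_
    rw [add_sub_cancel_left, hu]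
  obtain ⟨ε1, hε1, hL⟩ := Metric.isOpen_iff.1 isOpen_interior _ haW
  obtain ⟨ε2, hε2, hR⟩ := Metric.isOpen_iff.1 isClosed_closure.isOpen_compl _ hbR
  obtain ⟨g, hg⟩ := exists_indep h2 u
  have hg0 : g ≠ 0 := fun h0 => hg 0 (by rw [h0, zero_smul])
  have hgn : 0 < ‖g‖ := norm_pos_iff.2 hg0
  set r := min ε1 ε2 with hr
  have hr0 : 0 < r := lt_min hε1 hε2
  -- the small transversal vector
  let n : E := (r / (2 * ‖g‖)) • g
  have hn : ‖n‖ = r / 2 := by
    show ‖(r / (2 * ‖g‖)) • g‖ = r / 2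
    rw [norm_smul, Real.norm_of_nonneg (by positivity)]
    field_simp
  let Φ : ℝ × ℝ → E := fun z => a + ((z.1 + 1) / 2) • u + z.2 • n
  have hΦ : Continuous Φ := by fun_prop
  have hsmall : ∀ t ∈ Icc (-1 : ℝ) 1, ‖t • n‖ < r := by
    intro t ht
    rw [norm_smul, hn, Real.norm_eq_abs]
    have : |t| ≤ 1 := abs_le.2 ⟨ht.1, ht.2⟩
    calc |t| * (r / 2) ≤ 1 * (r / 2) := by gcongr
      _ < r := by linarith
  obtain ⟨C, hC1, hC2, hC3, ⟨s1, hs1⟩, ⟨s2, hs2⟩⟩ := crossing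
    (L := Φ ⁻¹' interior (closure (U i))) (R := Φ ⁻¹' (closure (U i))ᶜ)
    (isOpen_interior.preimage hΦ) (isClosed_closure.isOpen_compl.preimage hΦ)
    (by
      rw [Set.disjoint_left]
      intro z hz1 hz2
      exact hz2 (interior_subset hz1))
    (by
      intro t ht
      apply hL
      show a + (((-1 : ℝ) + 1) / 2) • u + t • n ∈ ball a ε1
      rw [neg_add_cancel, zero_div, zero_smul, add_zero, mem_ball_iff_norm, add_sub_cancel_left]
      exact lt_of_lt_of_le (hsmall t ht) (min_le_left _ _))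
    (by
      intro t ht
      apply hR
      show a + (((1 : ℝ) + 1) / 2) • u + t • n ∈ ball (a + u) ε2
      rw [show ((1 : ℝ) + 1) / 2 = 1 by norm_num, one_smul, mem_ball_iff_norm, add_sub_cancel_left]
      exact lt_of_lt_of_le (hsmall t ht) (min_le_right _ _))
  have hCc : IsCompact (closure C) := hC3.isCompact_closure
  have hCsub : closure C ⊆ (Φ ⁻¹' interior (closure (U i)) ∪ Φ ⁻¹' (closure (U i))ᶜ)ᶜ := by
    apply closure_minimal hC2
    exact ((isOpen_interior.preimage hΦ).union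
      (isClosed_closure.isOpen_compl.preimage hΦ)).isClosed_compl
  have hDc : IsCompact (Φ '' closure C) := hCc.image hΦ
  have hDp : IsPreconnected (Φ '' closure C) := hC1.closure.image _ hΦ.continuousOn
  have hDn : (Φ '' closure C).Nontrivial := by
    refine ⟨Φ (s1, -1), ⟨_, subset_closure hs1, rfl⟩, Φ (s2, 1), ⟨_, subset_closure hs2, rfl⟩, ?_⟩
    intro heq
    have heq' : a + ((s1 + 1) / 2) • u + (-1 : ℝ) • n = a + ((s2 + 1) / 2) • u + (1 : ℝ) • n := heq
    have h3 : (2 : ℝ) • n = ((s1 - s2) / 2) • u := by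
      have h4 : (2 : ℝ) • n - ((s1 - s2) / 2) • u =
          (a + ((s2 + 1) / 2) • u + (1 : ℝ) • n) - (a + ((s1 + 1) / 2) • u + (-1 : ℝ) • n) := by
        module
      rw [← heq', sub_self] at h4
      exact sub_eq_zero.1 h4
    have h5 : (2 : ℝ) • n = (r / ‖g‖) • g := by
      show (2 : ℝ) • ((r / (2 * ‖g‖)) • g) = (r / ‖g‖) • g
      rw [smul_smul]
      congr 1
      field_simp
    rw [h5] at h3
    apply hg ((r / ‖g‖)⁻¹ * ((s1 - s2) / 2))
    rw [mul_smul, ← h3, smul_smul, inv_mul_cancel₀ (by positivity), one_smul]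
  have hDi : ∀ x ∈ Φ '' closure C, x ∈ closure (U i) ∧ x ∉ interior (closure (U i)) := by
    rintro _ ⟨z, hz, rfl⟩
    have h3 := hCsub hz
    constructor
    · by_contra h4
      exact h3 (Or.inr h4)
    · intro h4
      exact h3 (Or.inl h4)
  obtain ⟨j, D, hD1, hD2, hD3⟩ := cover_lemma hDc hDp hDn
    (ι := {j : ι // j ≠ i}) (Z := fun j => closure (U j)) (fun j => isClosed_closure) (by
      intro x hx
      obtain ⟨j, hj1, hj2⟩ := h.nearTwo (hDi x hx).2
      exact mem_iUnion.2 ⟨⟨j, hj1⟩, hj2⟩)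
  exact ⟨i, j, j.2, D, hD1, hD2, fun x hx => (hDi x (hD3 hx).1).1, fun x hx => (hD3 hx).2⟩

/-- There is no tiling with four classes. -/
theorem no_four [StrictConvexSpace ℝ E] (h2 : finrank ℝ E = 2) {U : Fin 4 → Set E}
    (h : Tiling U) : False := by
  have hfd : FiniteDimensional ℝ E := finite_of_finrank_eq_succ h2
  obtain ⟨i, j, hij, Γ, hΓp, hΓn, hΓi, hΓj⟩ := wall h2 h
  obtain ⟨k, l, hki, hkj, hli, hlj, hkl, hall⟩ : ∃ k l : Fin 4, k ≠ i ∧ k ≠ j ∧ l ≠ i ∧ l ≠ j ∧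
      k ≠ l ∧ ∀ m, m = i ∨ m = j ∨ m = k ∨ m = l := by
    clear hΓi hΓj h
    revert i j
    decide
  obtain ⟨d, hd, h3⟩ := three_points hΓp hΓn
  obtain ⟨α, β, u0, hu0, hz, hβd, -, -, hα⟩ := coords h2 hd
  obtain ⟨η, hη, hη'⟩ := uniform hu0 hz hα (δ := 1 / 8) (by norm_num)
  obtain ⟨p, hp, x, hx, q, hq, t1, t2, d1, d2, ht1, ht1', ht2, ht2', hd1, hd2, hpx, hxq⟩ :=
    h3 η hη (1 / 8) (by norm_num)
  -- points `x + u` with `β u` large are off `Z i ∪ Z j`
  have hoff : ∀ u, ‖u‖ = 1 → 1 / 8 ≤ β u → x + u ∉ closure (U i) ∧ x + u ∉ closure (U j) := by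
    intro u hu hβ
    have h4 : ‖x + u - p‖ < 1 := by
      have : x + u - p = u - t1 • d1 := by
        rw [← hpx]; abel
      rw [this]
      exact inside hu (by norm_num) (hη' u d1 hu hβ hd1) ht1 ht1'
    have h5 : 1 < ‖x + u - q‖ := by
      have : x + u - q = u + t2 • d2 := by
        rw [← hxq]; abel
      rw [this]
      exact outside hu (by norm_num) (hη' u d2 hu hβ hd2) ht2
    exact ⟨h.sweep hΓp hΓi hp hq h4 h5, h.sweep hΓp hΓj hp hq h4 h5⟩
  -- `x + u` is in exactly one of `Z k`, `Z l` for `β u > 1/4`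
  have hone : ∀ u, ‖u‖ = 1 → 1 / 4 < β u → ¬ (x + u ∈ closure (U k) ∧ x + u ∈ closure (U l)) := by
    rintro u hu hβ ⟨hk, hl⟩
    obtain ⟨w, hw1, hw2, hw3⟩ := adjacent' h2 β hu
    have hw4 : 1 / 8 ≤ β w := by linarith
    have h4 := hoff u hu (by linarith)
    have h5 := hoff w hw1 hw4
    refine pure h2 h hall (a := x + u) (b := x + w) ?_ h4.1 h4.2 h5.1 h5.2 hk hl
    rw [add_sub_add_left_eq_sub, norm_sub_rev, hw2]
  have hI := cap_preconnected β (c := 1 / 4) (by norm_num)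
  have hcl : ∀ u ∈ {u : E | ‖u‖ = 1 ∧ 1 / 4 < β u},
      u ∈ {u : E | x + u ∉ closure (U i) ∧ x + u ∉ closure (U j) ∧ x + u ∉ closure (U l)} ∪
        {u : E | x + u ∉ closure (U i) ∧ x + u ∉ closure (U j) ∧ x + u ∉ closure (U k)} := by
    rintro u ⟨hu, hβ⟩
    have h4 := hoff u hu (by linarith)
    by_cases hl : x + u ∈ closure (U l)
    · right
      exact ⟨h4.1, h4.2, fun hk => hone u hu hβ ⟨hk, hl⟩⟩
    · left
      exact ⟨h4.1, h4.2, hl⟩
  have hopen : ∀ m, IsOpen {u : E | x + u ∉ closure (U i) ∧ x + u ∉ closure (U j) ∧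
      x + u ∉ closure (U m)} := by
    intro m
    have hc : Continuous fun u : E => x + u := by fun_prop
    exact (isClosed_closure.isOpen_compl.preimage hc).inter
      ((isClosed_closure.isOpen_compl.preimage hc).inter
        (isClosed_closure.isOpen_compl.preimage hc))
  -- a pair at distance one in the cap
  have hdI : d ∈ {u : E | ‖u‖ = 1 ∧ 1 / 4 < β u} := ⟨hd, by rw [hβd]; norm_num⟩
  obtain ⟨w, hw1, hw2, hw3⟩ := adjacent' h2 β hd
  have hwI : w ∈ {u : E | ‖u‖ = 1 ∧ 1 / 4 < β u} := ⟨hw1, by rw [hβd] at hw3; linarith⟩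
  have hfin : ∀ m n, (∀ v, v = i ∨ v = j ∨ v = m ∨ v = n) →
      ({u : E | ‖u‖ = 1 ∧ 1 / 4 < β u} ⊆ {u : E | x + u ∉ closure (U i) ∧
        x + u ∉ closure (U j) ∧ x + u ∉ closure (U n)}) → False := by
    intro m n hmn hsub
    have h4 : ∀ y : E, y ∈ (fun u : E => x + u) '' {u : E | x + u ∉ closure (U i) ∧
        x + u ∉ closure (U j) ∧ x + u ∉ closure (U n)} → y ∈ interior (closure (U m)) := by
      rintro _ ⟨u, ⟨hu1, hu2, hu3⟩, rfl⟩
      have ho : IsOpen ((closure (U i))ᶜ ∩ ((closure (U j))ᶜ ∩ (closure (U n))ᶜ)) :=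
        isClosed_closure.isOpen_compl.inter
          (isClosed_closure.isOpen_compl.inter isClosed_closure.isOpen_compl)
      refine mem_interior.2 ⟨_, ?_, ho, ⟨hu1, hu2, hu3⟩⟩
      rintro y ⟨hy1, hy2, hy3⟩
      obtain ⟨v, hv⟩ := h.cover y
      rcases hmn v with rfl | rfl | rfl | rfl
      · exact absurd hv hy1
      · exact absurd hv hy2
      · exact hv
      · exact absurd hv hy3
    have h5 := h4 _ ⟨d, hsub hdI, rfl⟩
    have h6 := h4 _ ⟨w, hsub hwI, rfl⟩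
    refine h.avoid' (interior_subset h5) h6 ?_
    rw [add_sub_add_left_eq_sub, hw2]
  have hdisj : {u : E | ‖u‖ = 1 ∧ 1 / 4 < β u} ∩
      ({u : E | x + u ∉ closure (U i) ∧ x + u ∉ closure (U j) ∧ x + u ∉ closure (U l)} ∩
      {u : E | x + u ∉ closure (U i) ∧ x + u ∉ closure (U j) ∧ x + u ∉ closure (U k)}) = ∅ := by
    rw [Set.eq_empty_iff_forall_notMem]
    rintro u ⟨-, ⟨hu1, hu2, hu3⟩, ⟨-, -, hu4⟩⟩
    obtain ⟨v, hv⟩ := h.cover (x + u)
    rcases hall v with rfl | rfl | rfl | rfl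
    · exact hu1 hv
    · exact hu2 hv
    · exact hu4 hv
    · exact hu3 hv
  rcases isPreconnected_iff_subset_of_disjoint.1 hI _ _ (hopen l) (hopen k) hcl hdisj with h4 | h4
  · exact hfin k l hall h4
  · exact hfin l k (fun v => by rcases hall v with h | h | h | h <;> simp [h]) h4

end Pool.Agent.Helper2.LP
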